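import Pool.Agent.Helper1.LL.Main

/-!
# Semiclassical mean-field limit of the Levy-Lieb functional (MP_2a55aa_mp, Q1)

For every `d ≥ 1`, every `V`, `w` as in the problem, every `f ≥ 0` with `√f ∈ H¹(ℝ^d)` and
`∫ f = 1`, and all sequences with `h_N N^{1/d} → 1`, `lam_N N → 1`,
`𝓔_N(f) → 𝓔_TF(f)`.  The particle number is `N = n + 1`.
-/

open MeasureTheory Filter Topology
open Pool.Agent.Helper1.LL

namespace Pool.Agent.Results.MP_2a55aa_mp.LevyLiebLimit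

theorem result (d : ℕ) (hd : 1 ≤ d) (V w f : Sp d → ℝ)
    (hV : InLpSum (1 + d / 2 : ℝ) V) (hw : AdmissibleInteraction w)
    (hf0 : ∀ x, 0 ≤ f x) (hfH : ∃ G, IsH1 (fun x => Real.sqrt (f x)) G) (hf1 : ∫ x, f x = 1)
    (h lam : ℕ → ℝ)
    (hh : Tendsto (fun N : ℕ => h N * (N : ℝ) ^ (1 / d : ℝ)) atTop (𝓝 1))
    (hl : Tendsto (fun N : ℕ => lam N * N) atTop (𝓝 1)) :
    Tendsto (fun n : ℕ => levyLieb n (h (n + 1)) (lam (n + 1)) V w f) atTop
      (𝓝 ((thomasFermi V w f : ℝ) : EReal)) :=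
  levyLieb_tendsto hd V w f hV hw hf0 hfH hf1 h lam hh hl

end Pool.Agent.Results.MP_2a55aa_mp.LevyLiebLimit
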